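import Mathlib

set_option autoImplicit false

/-! # MP_1fec7a_co, Q2: the line graph of the cube with one subdivided edge

A connected clique partitioned simple graph with 13 vertices, reduced genus `0`, clique number `3`
and chromatic number `4 > max (H(0) - 1) 3 = 3`. So Q2 has a negative answer (for `g = 0`).

The vertices of the graph are the 13 edges of the graph obtained from the 3-dimensional cube by
subdividing one edge; the hyperedges are the 9 stars, and the incidence graph is a subdivision of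
the planar graph we started from. -/

namespace Pool.Agent.Results.MP_1fec7a_co.LineGraphPlanar

open SimpleGraph

/-- A rotation system of a simple graph: a permutation of the darts (oriented edges) that keeps the
initial vertex and permutes the darts leaving any given vertex in a single cycle. -/
structure Rotation {W : Type} (G : SimpleGraph W) where
  next : Equiv.Perm G.Dart
  fst_next : ∀ d : G.Dart, (next d).fst = d.fst
  cyclic : ∀ d e : G.Dart, d.fst = e.fst → next.SameCycle d e

/-- Reversal of darts. -/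
def reversal {W : Type} (G : SimpleGraph W) : Equiv.Perm G.Dart :=
  Function.Involutive.toPerm Dart.symm Dart.symm_involutive

/-- The face permutation: run along the dart `d`, then leave its end vertex by the dart that
follows the reverse of `d` in the rotation. Its orbits are the facial walks. -/
def Rotation.face {W : Type} {G : SimpleGraph W} (R : Rotation G) : Equiv.Perm G.Dart :=
  (reversal G).trans R.next

/-- The number of faces: the orbits of the face permutation, and one face for every isolated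
vertex. -/
noncomputable def Rotation.faces {W : Type} {G : SimpleGraph W} (R : Rotation G) : ℕ :=
  Nat.card (Quotient (Equiv.Perm.SameCycle.setoid R.face)) +
    Nat.card {v : W // ∀ w, ¬ G.Adj v w}

/-- `G` embeds in the orientable surface of genus `g`: some rotation system has Euler
characteristic `V - E + F` at least `2 c - 2 g`, with `c` the number of components of `G`. -/
def EmbedsInGenus {W : Type} (G : SimpleGraph W) (g : ℕ) : Prop :=
  ∃ R : Rotation G,
    2 * Nat.card G.ConnectedComponent + Nat.card G.edgeSet ≤ Nat.card W + R.faces + 2 * g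

/-- The orientable genus of `G` is `g`. -/
def HasGenus {W : Type} (G : SimpleGraph W) (g : ℕ) : Prop :=
  IsLeast {h : ℕ | EmbedsInGenus G h} g

/-- The incidence graph of the hypergraph with edges `E i`, `i : ι`. -/
def incidence {V ι : Type} (E : ι → Finset V) : SimpleGraph (V ⊕ ι) where
  Adj a b := (∃ v i, v ∈ E i ∧ a = Sum.inl v ∧ b = Sum.inr i) ∨
    (∃ v i, v ∈ E i ∧ a = Sum.inr i ∧ b = Sum.inl v)
  symm := ⟨fun a b h => by
    rcases h with ⟨v, i, h, ha, hb⟩ | ⟨v, i, h, ha, hb⟩
    · exact Or.inr ⟨v, i, h, hb, ha⟩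
    · exact Or.inl ⟨v, i, h, hb, ha⟩⟩
  loopless := ⟨fun a h => by
    rcases h with ⟨v, i, h, ha, hb⟩ | ⟨v, i, h, ha, hb⟩ <;> simp_all⟩

/-- The multiplicity of `uv` in the adjacency multigraph: the number of hyperedges containing both
`u` and `v`. -/
noncomputable def mult {V ι : Type} (E : ι → Finset V) (u v : V) : ℕ :=
  Nat.card {i : ι // u ∈ E i ∧ v ∈ E i}

/-- The adjacency multigraph of the hypergraph `E` is the simple graph `G`. -/
def AdjacencyIs {V ι : Type} (E : ι → Finset V) (G : SimpleGraph V) : Prop :=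
  ∀ u v : V, u ≠ v → (G.Adj u v → mult E u v = 1) ∧ (¬ G.Adj u v → mult E u v = 0)

/-- The reduced genus of `G` is `g`: the least genus of a finite hypergraph whose adjacency
multigraph is `G`. -/
def HasReducedGenus {V : Type} (G : SimpleGraph V) (g : ℕ) : Prop :=
  IsLeast {h : ℕ | ∃ (ι : Type) (_ : Finite ι) (E : ι → Finset V),
    AdjacencyIs E G ∧ HasGenus (incidence E) h} g

/-- Heawood's function. -/
noncomputable def heawood (g : ℕ) : ℝ := (7 + √(1 + 48 * (g : ℝ))) / 2

/-- `G` is clique partitioned: any two of its maximal cliques have at most one common vertex. -/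
def CliquePartitioned {V : Type} (G : SimpleGraph V) : Prop :=
  ∀ s t : Set V, Maximal G.IsClique s → Maximal G.IsClique t → s ≠ t → (s ∩ t).Subsingleton

/-! ### The graph -/

/-- The ends of the 13 edges of the cube on `0, ..., 7` whose edge `01` is subdivided by `8`. -/
def ends : Fin 13 → Fin 9 × Fin 9 :=
  ![(0, 8), (8, 1), (0, 2), (0, 4), (1, 3), (1, 5), (2, 3), (2, 6), (3, 7), (4, 5), (4, 6),
    (5, 7), (6, 7)]

/-- The stars of the subdivided cube. -/
def E (i : Fin 9) : Finset (Fin 13) :=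
  Finset.univ.filter fun e => (ends e).1 = i ∨ (ends e).2 = i

/-- The line graph of the subdivided cube. -/
def L : SimpleGraph (Fin 13) where
  Adj a b := a ≠ b ∧ ∃ i, a ∈ E i ∧ b ∈ E i
  symm := ⟨fun _ _ h => ⟨h.1.symm, h.2.imp fun _ hi => ⟨hi.2, hi.1⟩⟩⟩
  loopless := ⟨fun _ h => h.1 rfl⟩

instance : DecidableRel L.Adj := fun a b =>
  inferInstanceAs (Decidable (a ≠ b ∧ ∃ i, a ∈ E i ∧ b ∈ E i))

theorem adjacencyIs : AdjacencyIs E L := by
  have h1 : ∀ u v : Fin 13, u ≠ v → ∀ i j : Fin 9, u ∈ E i → v ∈ E i → u ∈ E j → v ∈ E j →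
      i = j := by decide +kernel
  intro u v huv
  constructor
  · rintro ⟨-, i, hu, hv⟩
    unfold mult
    rw [Nat.card_eq_one_iff_unique]
    exact ⟨⟨fun x y => Subtype.ext (h1 u v huv _ _ x.2.1 x.2.2 y.2.1 y.2.2)⟩, ⟨⟨i, hu, hv⟩⟩⟩
  · intro h
    unfold mult
    rw [Nat.card_eq_zero]
    left
    exact ⟨fun x => h ⟨huv, x.1, x.2.1, x.2.2⟩⟩

/-! ### The rotation system -/

/-- The other end of the edge `e`. -/
def other (e : Fin 13) (i : Fin 9) : Fin 9 := if (ends e).1 = i then (ends e).2 else (ends e).1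

/-- The next edge around the vertex `i`, as a list of cycles. -/
def cyc : Fin 9 → Fin 13 × Fin 13 × Fin 13 :=
  ![(0, 2, 3), (5, 4, 1), (7, 2, 6), (6, 4, 8), (3, 10, 9), (9, 11, 5), (12, 10, 7), (8, 11, 12),
    (0, 1, 1)]

/-- The next edge around the vertex `i`. -/
def rot (i : Fin 9) (e : Fin 13) : Fin 13 :=
  if e = (cyc i).1 then (cyc i).2.1 else
    if e = (cyc i).2.1 then (if (cyc i).2.2 = (cyc i).2.1 then (cyc i).1 else (cyc i).2.2)
    else (cyc i).1

/-- The previous edge around the vertex `i`. -/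
def rotInv (i : Fin 9) (e : Fin 13) : Fin 13 := rot i (if i = 8 then e else rot i e)

/-- The next vertex. -/
def nx : Fin 13 ⊕ Fin 9 → Fin 13 ⊕ Fin 9 → Fin 13 ⊕ Fin 9
  | Sum.inl e, Sum.inr i => Sum.inr (other e i)
  | Sum.inr i, Sum.inl e => Sum.inl (rot i e)
  | _, b => b

/-- The previous vertex. -/
def pv : Fin 13 ⊕ Fin 9 → Fin 13 ⊕ Fin 9 → Fin 13 ⊕ Fin 9
  | Sum.inl e, Sum.inr i => Sum.inr (other e i)
  | Sum.inr i, Sum.inl e => Sum.inl (rotInv i e)
  | _, b => b

theorem adj_lr {e : Fin 13} {i : Fin 9} :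
    (incidence E).Adj (Sum.inl e) (Sum.inr i) ↔ e ∈ E i := by
  constructor
  · rintro (⟨v, j, h, h1, h2⟩ | ⟨v, j, h, h1, h2⟩)
    · cases h1; cases h2; exact h
    · cases h1
  · intro h
    exact Or.inl ⟨e, i, h, rfl, rfl⟩

theorem adj_rl {e : Fin 13} {i : Fin 9} :
    (incidence E).Adj (Sum.inr i) (Sum.inl e) ↔ e ∈ E i := by
  rw [SimpleGraph.adj_comm, adj_lr]

theorem not_ll {e f : Fin 13} : ¬ (incidence E).Adj (Sum.inl e) (Sum.inl f) := by
  rintro (⟨v, j, h, h1, h2⟩ | ⟨v, j, h, h1, h2⟩)
  · cases h2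
  · cases h1

theorem not_rr {i j : Fin 9} : ¬ (incidence E).Adj (Sum.inr i) (Sum.inr j) := by
  rintro (⟨v, k, h, h1, h2⟩ | ⟨v, k, h, h1, h2⟩)
  · cases h1
  · cases h2

theorem nx_adj : ∀ a b, (incidence E).Adj a b → (incidence E).Adj a (nx a b) := by
  have h1 : ∀ (e : Fin 13) (i : Fin 9), e ∈ E i → e ∈ E (other e i) := by decide +kernel
  have h2 : ∀ (i : Fin 9) (e : Fin 13), e ∈ E i → rot i e ∈ E i := by decide +kernel
  rintro (e | i) (f | j) h
  · exact absurd h not_ll
  · exact adj_lr.2 (h1 _ _ (adj_lr.1 h))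
  · exact adj_rl.2 (h2 _ _ (adj_rl.1 h))
  · exact absurd h not_rr

theorem pv_adj : ∀ a b, (incidence E).Adj a b → (incidence E).Adj a (pv a b) := by
  have h1 : ∀ (e : Fin 13) (i : Fin 9), e ∈ E i → e ∈ E (other e i) := by decide +kernel
  have h2 : ∀ (i : Fin 9) (e : Fin 13), e ∈ E i → rotInv i e ∈ E i := by decide +kernel
  rintro (e | i) (f | j) h
  · exact absurd h not_ll
  · exact adj_lr.2 (h1 _ _ (adj_lr.1 h))
  · exact adj_rl.2 (h2 _ _ (adj_rl.1 h))
  · exact absurd h not_rr

theorem pv_nx : ∀ a b, (incidence E).Adj a b → pv a (nx a b) = b := by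
  have h1 : ∀ (e : Fin 13) (i : Fin 9), e ∈ E i → other e (other e i) = i := by decide +kernel
  have h2 : ∀ (i : Fin 9) (e : Fin 13), e ∈ E i → rotInv i (rot i e) = e := by decide +kernel
  rintro (e | i) (f | j) h
  · exact absurd h not_ll
  · exact congrArg Sum.inr (h1 _ _ (adj_lr.1 h))
  · exact congrArg Sum.inl (h2 _ _ (adj_rl.1 h))
  · exact absurd h not_rr

theorem nx_pv : ∀ a b, (incidence E).Adj a b → nx a (pv a b) = b := by
  have h1 : ∀ (e : Fin 13) (i : Fin 9), e ∈ E i → other e (other e i) = i := by decide +kernel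
  have h2 : ∀ (i : Fin 9) (e : Fin 13), e ∈ E i → rot i (rotInv i e) = e := by decide +kernel
  rintro (e | i) (f | j) h
  · exact absurd h not_ll
  · exact congrArg Sum.inr (h1 _ _ (adj_lr.1 h))
  · exact congrArg Sum.inl (h2 _ _ (adj_rl.1 h))
  · exact absurd h not_rr

theorem nx_cyc : ∀ a b c, (incidence E).Adj a b → (incidence E).Adj a c →
    b = c ∨ nx a b = c ∨ nx a (nx a b) = c := by
  have h1 : ∀ (e : Fin 13) (i j : Fin 9), e ∈ E i → e ∈ E j → i = j ∨ other e i = j := by
    decide +kernel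
  have h2 : ∀ (i : Fin 9) (e f : Fin 13), e ∈ E i → f ∈ E i →
      e = f ∨ rot i e = f ∨ rot i (rot i e) = f := by decide +kernel
  rintro (e | i) (f | j) (g | k) h h'
  · exact absurd h not_ll
  · exact absurd h not_ll
  · exact absurd h' not_ll
  · rcases h1 _ _ _ (adj_lr.1 h) (adj_lr.1 h') with h3 | h3
    · exact Or.inl (congrArg Sum.inr h3)
    · exact Or.inr (Or.inl (congrArg Sum.inr h3))
  · rcases h2 _ _ _ (adj_rl.1 h) (adj_rl.1 h') with h3 | h3 | h3
    · exact Or.inl (congrArg Sum.inl h3)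
    · exact Or.inr (Or.inl (congrArg Sum.inl h3))
    · exact Or.inr (Or.inr (congrArg Sum.inl h3))
  · exact absurd h' not_rr
  · exact absurd h not_rr
  · exact absurd h not_rr

/-- The rotation system of the incidence graph coming from the planar drawing of the cube. -/
def R : Rotation (incidence E) where
  next :=
    { toFun := fun d => ⟨(d.fst, nx d.fst d.snd), nx_adj _ _ d.adj⟩
      invFun := fun d => ⟨(d.fst, pv d.fst d.snd), pv_adj _ _ d.adj⟩
      left_inv := fun d => by
        apply Dart.ext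
        exact Prod.ext rfl (pv_nx _ _ d.adj)
      right_inv := fun d => by
        apply Dart.ext
        exact Prod.ext rfl (nx_pv _ _ d.adj) }
  fst_next := fun d => rfl
  cyclic := by
    rintro ⟨⟨a, b⟩, hd⟩ ⟨⟨a', c⟩, he⟩ h
    obtain rfl : a = a' := h
    rcases nx_cyc a b c hd he with h1 | h1 | h1
    · refine ⟨0, ?_⟩
      apply Dart.ext
      exact Prod.ext rfl h1
    · refine ⟨1, ?_⟩
      apply Dart.ext
      exact Prod.ext rfl h1
    · refine ⟨2, ?_⟩
      apply Dart.ext
      exact Prod.ext rfl h1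

/-! ### The faces -/

/-- Faces on the side of the darts from an edge to its first and second end. -/
def tabA : Fin 13 → Fin 6 × Fin 6 :=
  ![(0, 1), (0, 1), (2, 0), (1, 2), (0, 3), (3, 1), (4, 0), (2, 4), (4, 3), (1, 5), (5, 2),
    (3, 5), (5, 4)]

/-- The label (face) of a dart. -/
def lab : Fin 13 ⊕ Fin 9 → Fin 13 ⊕ Fin 9 → Fin 6
  | Sum.inl e, Sum.inr i => if (ends e).1 = i then (tabA e).1 else (tabA e).2
  | Sum.inr i, Sum.inl e => if (ends e).1 = i then (tabA e).2 else (tabA e).1
  | _, _ => 0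

theorem lab_face : ∀ a b, (incidence E).Adj a b → lab b (nx b a) = lab a b := by
  have h1 : ∀ (e : Fin 13) (i : Fin 9), e ∈ E i →
      lab (Sum.inr i) (Sum.inl (rot i e)) = lab (Sum.inl e) (Sum.inr i) := by decide +kernel
  have h2 : ∀ (i : Fin 9) (e : Fin 13), e ∈ E i →
      lab (Sum.inl e) (Sum.inr (other e i)) = lab (Sum.inr i) (Sum.inl e) := by decide +kernel
  rintro (e | i) (f | j) h
  · exact absurd h not_ll
  · exact h1 _ _ (adj_lr.1 h)
  · exact h2 _ _ (adj_rl.1 h)
  · exact absurd h not_rr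

/-- The label of a dart. -/
def labD (d : (incidence E).Dart) : Fin 6 := lab d.fst d.snd

theorem labD_face (d : (incidence E).Dart) : labD (R.face d) = labD d :=
  lab_face _ _ d.adj

theorem labD_pow (n : ℕ) (d : (incidence E).Dart) : labD ((R.face ^ n) d) = labD d := by
  induction n with
  | zero => rfl
  | succ n ih => rw [pow_succ', Equiv.Perm.mul_apply, labD_face, ih]

theorem labD_sameCycle (d e : (incidence E).Dart) (h : R.face.SameCycle d e) :
    labD d = labD e := by
  obtain ⟨k, hk⟩ := h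
  rcases Int.eq_nat_or_neg k with ⟨n, rfl | rfl⟩
  · rw [← hk, zpow_natCast, labD_pow]
  · rw [zpow_neg, zpow_natCast] at hk
    have : d = (R.face ^ n) e := by rw [← hk]; simp
    rw [this, labD_pow]

theorem six_faces : 6 ≤ R.faces := by
  have hfin : Finite (incidence E).Dart := Finite.of_injective _ Dart.toProd_injective
  let q : Quotient (Equiv.Perm.SameCycle.setoid R.face) → Fin 6 :=
    Quotient.lift labD fun d e h => labD_sameCycle d e h
  have hq : Function.Surjective q := by
    have h0 : ∀ j : Fin 6, ∃ (e : Fin 13) (i : Fin 9), e ∈ E i ∧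
        lab (Sum.inl e) (Sum.inr i) = j := by decide +kernel
    intro j
    obtain ⟨e, i, he, hj⟩ := h0 j
    exact ⟨Quotient.mk _ ⟨(Sum.inl e, Sum.inr i), adj_lr.2 he⟩, hj⟩
  have h1 := Nat.card_le_card_of_surjective q hq
  rw [Nat.card_eq_fintype_card, Fintype.card_fin] at h1
  unfold Rotation.faces
  omega

/-! ### Connectedness and Euler's formula -/

theorem connected_inc : (incidence E).Connected := by
  have step : ∀ {e : Fin 13} {i j : Fin 9}, e ∈ E i → e ∈ E j →
      (incidence E).Reachable (Sum.inr j) (Sum.inr 0) →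
      (incidence E).Reachable (Sum.inr i) (Sum.inr 0) := fun hi hj h =>
    ((adj_rl.2 hi).reachable.trans (adj_lr.2 hj).reachable).trans h
  have h0 : (incidence E).Reachable (Sum.inr 0) (Sum.inr 0) := Reachable.refl _
  have h8 : (incidence E).Reachable (Sum.inr 8) (Sum.inr 0) :=
    step (e := 0) (by decide) (by decide) h0
  have h1 : (incidence E).Reachable (Sum.inr 1) (Sum.inr 0) :=
    step (e := 1) (j := 8) (by decide) (by decide) h8
  have h2 : (incidence E).Reachable (Sum.inr 2) (Sum.inr 0) :=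
    step (e := 2) (by decide) (by decide) h0
  have h4 : (incidence E).Reachable (Sum.inr 4) (Sum.inr 0) :=
    step (e := 3) (by decide) (by decide) h0
  have h3 : (incidence E).Reachable (Sum.inr 3) (Sum.inr 0) :=
    step (e := 6) (j := 2) (by decide) (by decide) h2
  have h5 : (incidence E).Reachable (Sum.inr 5) (Sum.inr 0) :=
    step (e := 9) (j := 4) (by decide) (by decide) h4
  have h6 : (incidence E).Reachable (Sum.inr 6) (Sum.inr 0) :=
    step (e := 7) (j := 2) (by decide) (by decide) h2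
  have h7 : (incidence E).Reachable (Sum.inr 7) (Sum.inr 0) :=
    step (e := 8) (j := 3) (by decide) (by decide) h3
  have hr : ∀ i : Fin 9, (incidence E).Reachable (Sum.inr i) (Sum.inr 0) := by
    intro i
    fin_cases i
    exacts [h0, h1, h2, h3, h4, h5, h6, h7, h8]
  have hl : ∀ e : Fin 13, (incidence E).Reachable (Sum.inl e) (Sum.inr 0) := by
    intro e
    have : e ∈ E (ends e).1 := by simp [E]
    exact (adj_lr.2 this).reachable.trans (hr _)
  have hall : ∀ x, (incidence E).Reachable x (Sum.inr 0) := by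
    rintro (e | i)
    · exact hl e
    · exact hr i
  exact { preconnected := fun x y => (hall x).trans (hall y).symm
          nonempty := ⟨Sum.inr 0⟩ }

theorem card_incidence {V ι : Type} [Finite V] [Finite ι] (E : ι → Finset V) :
    Nat.card (incidence E).edgeSet ≤ Nat.card (Σ i : ι, {v : V // v ∈ E i}) := by
  classical
  let f : (Σ i : ι, {v : V // v ∈ E i}) → (incidence E).edgeSet := fun x =>
    ⟨s(Sum.inl x.2.1, Sum.inr x.1), by
      rw [mem_edgeSet]
      exact Or.inl ⟨x.2.1, x.1, x.2.2, rfl, rfl⟩⟩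
  apply Nat.card_le_card_of_surjective f
  rintro ⟨e, he⟩
  induction e using Sym2.ind with
  | _ a b =>
    rw [mem_edgeSet] at he
    rcases he with ⟨v, i, h, rfl, rfl⟩ | ⟨v, i, h, rfl, rfl⟩
    · exact ⟨⟨i, v, h⟩, rfl⟩
    · exact ⟨⟨i, v, h⟩, Subtype.ext Sym2.eq_swap⟩

theorem embeds : EmbedsInGenus (incidence E) 0 := by
  refine ⟨R, ?_⟩
  have h1 : Nat.card (incidence E).ConnectedComponent = 1 := by
    have := connected_inc.preconnected.subsingleton_connectedComponent
    have : Nonempty (incidence E).ConnectedComponent :=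
      ⟨(incidence E).connectedComponentMk (Sum.inr 0)⟩
    exact Nat.card_eq_one_iff_unique.mpr ⟨inferInstance, inferInstance⟩
  have h2 : Nat.card (Σ i : Fin 9, {v : Fin 13 // v ∈ E i}) = 26 := by
    rw [Nat.card_sigma]
    simp only [Nat.card_eq_fintype_card, Fintype.card_coe]
    decide +kernel
  have h3 := card_incidence E
  have h4 := six_faces
  have h5 : Nat.card (Fin 13 ⊕ Fin 9) = 22 := by
    rw [Nat.card_sum]
    simp
  rw [h2] at h3
  rw [h1, h5]
  omega

theorem reducedGenus : HasReducedGenus L 0 :=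
  ⟨⟨Fin 9, inferInstance, E, adjacencyIs, embeds, fun _ _ => Nat.zero_le _⟩,
    fun _ _ => Nat.zero_le _⟩

/-! ### Cliques -/

theorem clique_sub (s : Set (Fin 13)) (hs : L.IsClique s) (x y : Fin 13) (hx : x ∈ s)
    (hy : y ∈ s) (hxy : x ≠ y) : ∃ i : Fin 9, x ∈ E i ∧ y ∈ E i ∧ s ⊆ {z | z ∈ E i} := by
  have key : ∀ x y : Fin 13, L.Adj x y → ∃ i : Fin 9, x ∈ E i ∧ y ∈ E i ∧
      ∀ z : Fin 13, L.Adj z x → L.Adj z y → z ∈ E i := by decide +kernel
  obtain ⟨i, h1, h2, h3⟩ := key x y (hs hx hy hxy)
  refine ⟨i, h1, h2, fun z hz => ?_⟩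
  by_cases hzx : z = x
  · subst hzx; exact h1
  by_cases hzy : z = y
  · subst hzy; exact h2
  exact h3 z (hs hz hx hzx) (hs hz hy hzy)

theorem star_clique (i : Fin 9) : L.IsClique {z | z ∈ E i} := by
  intro a ha b hb hab
  exact ⟨hab, i, ha, hb⟩

theorem cliquePartitioned : CliquePartitioned L := by
  have h1 : ∀ u v : Fin 13, u ≠ v → ∀ i j : Fin 9, u ∈ E i → v ∈ E i → u ∈ E j → v ∈ E j →
      i = j := by decide +kernel
  intro s t hs ht hst x hx y hy
  by_contra hxy
  obtain ⟨i, hxi, hyi, hsi⟩ := clique_sub s hs.prop x y hx.1 hy.1 hxy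
  obtain ⟨j, hxj, hyj, htj⟩ := clique_sub t ht.prop x y hx.2 hy.2 hxy
  obtain rfl := h1 x y hxy i j hxi hyi hxj hyj
  apply hst
  have e1 : s = {z | z ∈ E i} := hs.eq_of_subset (star_clique i) hsi
  have e2 : t = {z | z ∈ E i} := ht.eq_of_subset (star_clique i) htj
  rw [e1, e2]

theorem cliqueNum_eq : L.cliqueNum = 3 := by
  apply le_antisymm
  · obtain ⟨s, hs⟩ := L.exists_isNClique_cliqueNum
    rw [← hs.card_eq]
    by_contra hlt
    push Not at hlt
    obtain ⟨x, hx, y, hy, hxy⟩ := Finset.one_lt_card.mp (by omega : 1 < s.card)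
    obtain ⟨i, -, -, hi⟩ := clique_sub (s : Set (Fin 13)) hs.isClique x y hx hy hxy
    have h1 : s ⊆ E i := fun z hz => hi hz
    have h2 := Finset.card_le_card h1
    have h3 : ∀ i, (E i).card ≤ 3 := by decide +kernel
    have := h3 i
    omega
  · have h1 : L.IsClique (({0, 2, 3} : Finset (Fin 13)) : Set (Fin 13)) := by
      have : (({0, 2, 3} : Finset (Fin 13)) : Set (Fin 13)) ⊆ {z | z ∈ E 0} := by
        intro z hz
        have h2 : ∀ z : Fin 13, z ∈ ({0, 2, 3} : Finset (Fin 13)) → z ∈ E 0 := by decide +kernel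
        exact h2 z (by exact_mod_cast hz)
      exact (star_clique 0).subset this
    have h2 := IsClique.card_le_cliqueNum (tc := h1)
    simpa using h2

/-! ### Colourings -/

theorem indep_card (S : Finset (Fin 13)) (hS : ∀ a ∈ S, ∀ b ∈ S, a ≠ b → ¬ L.Adj a b) :
    S.card ≤ 4 := by
  classical
  have h1 : (S.biUnion fun e => ({(ends e).1, (ends e).2} : Finset (Fin 9))).card =
      ∑ e ∈ S, ({(ends e).1, (ends e).2} : Finset (Fin 9)).card := by
    apply Finset.card_biUnion
    intro a ha b hb hab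
    rw [Function.onFun, Finset.disjoint_left]
    intro i hi hj
    apply hS a ha b hb hab
    refine ⟨hab, i, ?_, ?_⟩
    · simp only [Finset.mem_insert, Finset.mem_singleton] at hi
      simp only [E, Finset.mem_filter, Finset.mem_univ, true_and]
      exact hi.imp Eq.symm Eq.symm
    · simp only [Finset.mem_insert, Finset.mem_singleton] at hj
      simp only [E, Finset.mem_filter, Finset.mem_univ, true_and]
      exact hj.imp Eq.symm Eq.symm
  have h2 : ∀ e, ({(ends e).1, (ends e).2} : Finset (Fin 9)).card = 2 := by decide +kernel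
  have h3 := Finset.card_le_univ (S.biUnion fun e => ({(ends e).1, (ends e).2} : Finset (Fin 9)))
  rw [h1] at h3
  simp only [h2, Finset.sum_const, smul_eq_mul, Fintype.card_fin] at h3
  omega

theorem not_colorable : ¬ L.Colorable 3 := by
  classical
  rintro ⟨c⟩
  have h1 : ∀ j : Fin 3, (Finset.univ.filter fun e => c e = j).card ≤ 4 := by
    intro j
    apply indep_card
    intro a ha b hb _ hadj
    simp only [Finset.mem_filter, Finset.mem_univ, true_and] at ha hb
    exact c.valid hadj (ha.trans hb.symm)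
  have h2 : (Finset.univ : Finset (Fin 13)).card =
      ∑ j : Fin 3, (Finset.univ.filter fun e => c e = j).card :=
    Finset.card_eq_sum_card_fiberwise (fun _ _ => Finset.mem_coe.2 (Finset.mem_univ _))
  have h3 : ∑ j : Fin 3, (Finset.univ.filter fun e => c e = j).card ≤ ∑ _j : Fin 3, 4 :=
    Finset.sum_le_sum fun j _ => h1 j
  simp at h2 h3
  omega

theorem colorable : L.Colorable 4 := by
  let c : Fin 13 → Fin 4 := ![0, 1, 1, 2, 0, 2, 2, 0, 1, 0, 1, 3, 2]
  have hc : ∀ a b : Fin 13, L.Adj a b →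
      (![0, 1, 1, 2, 0, 2, 2, 0, 1, 0, 1, 3, 2] : Fin 13 → Fin 4) a ≠
      (![0, 1, 1, 2, 0, 2, 2, 0, 1, 0, 1, 3, 2] : Fin 13 → Fin 4) b := by decide +kernel
  exact ⟨Coloring.mk c fun {a b} h => hc a b h⟩

theorem chromatic : L.chromaticNumber = 4 := by
  have := (chromaticNumber_eq_iff_colorable_not_colorable (G := L) (n := 3)).2
    ⟨colorable, not_colorable⟩
  rw [this]
  rfl

theorem heawood_zero : heawood 0 = 4 := by
  unfold heawood
  norm_num

theorem connected_L : L.Connected := by
  have hl : ∀ e : Fin 13, L.Reachable e 0 := by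
    have h1 : ∀ e : Fin 13, e ≠ 0 → ∃ f : Fin 13, L.Adj e f ∧
        (![0, 1, 1, 1, 2, 2, 2, 2, 3, 2, 2, 3, 3] : Fin 13 → ℕ) f <
        (![0, 1, 1, 1, 2, 2, 2, 2, 3, 2, 2, 3, 3] : Fin 13 → ℕ) e := by decide +kernel
    intro e
    induction hn : (![0, 1, 1, 1, 2, 2, 2, 2, 3, 2, 2, 3, 3] : Fin 13 → ℕ) e using
      Nat.strong_induction_on generalizing e with
    | _ n ih =>
      by_cases h : e = 0
      · rw [h]
      · obtain ⟨f, hf, hlt⟩ := h1 e h
        exact hf.reachable.trans (ih _ (hn ▸ hlt) f rfl)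
  exact { preconnected := fun x y => (hl x).trans (hl y).symm
          nonempty := ⟨0⟩ }

/-- Q2 has a negative answer: there is a connected clique partitioned simple graph with 13
vertices, reduced genus `0`, clique number `3` and chromatic number `4`, while
`max (H(0) - 1) 3 = 3`. -/
theorem result :
    (∃ G : SimpleGraph (Fin 13), G.Connected ∧ CliquePartitioned G ∧ HasReducedGenus G 0 ∧
      G.cliqueNum = 3 ∧ G.chromaticNumber = 4 ∧ max (heawood 0 - 1) (G.cliqueNum : ℝ) = 3) ∧
    ¬ ∀ (g : ℕ) (V : Type) (_ : Finite V) (G : SimpleGraph V), HasReducedGenus G g →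
      CliquePartitioned G →
      (ENat.toNat G.chromaticNumber : ℝ) ≤ max (heawood g - 1) (G.cliqueNum : ℝ) := by
  have hmax : max (heawood 0 - 1) (L.cliqueNum : ℝ) = 3 := by
    rw [heawood_zero, cliqueNum_eq]
    norm_num
  refine ⟨⟨L, connected_L, cliquePartitioned, reducedGenus, cliqueNum_eq, chromatic, hmax⟩, ?_⟩
  intro h
  have h1 := h 0 (Fin 13) inferInstance L reducedGenus cliquePartitioned
  rw [hmax, chromatic] at h1
  have h2 : ENat.toNat (4 : ℕ∞) = 4 := rfl
  rw [h2] at h1
  norm_num at h1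

end Pool.Agent.Results.MP_1fec7a_co.LineGraphPlanar
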